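import Pool.Agent.Q250.VSR.Main

/-!
# Multicolour vector space Ramsey numbers over `F_3` are bounded by towers of height `t`

`R t k` is the least `n` such that for every colouring of the points of `PG(n-1,3)` with `k` colours
there is a `t`-dimensional subspace of `F_3^n` (a `(t-1)`-flat) all of whose points have one colour.
We prove `R t k ≤ twr_t (11 (t - 1) k)` for `t ≥ 2`, so the height of the tower does not depend on the
number `k` of colours, and `R t k ≤ twr_r (k)` for all `k` with a constant `r = r (t)`.

Idea.  Let `m` be a bound for the dimension `t - 1` and the same number of colours, and suppose that a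
colouring `χ` of the nonzero vectors of `V = F_3^n` by the colours of the points has no
`t`-dimensional subspace in one colour.  We construct sets `B_0 = V, B_1, B_2, …` and, for each of
`j` different colours `i` (the used colours), a vector `s_i` such that `s_i + b` has colour `i` for
all `b` in `B_j`; and a fraction `3^(-E_j)` of the linear maps `F_3^m → V` has its image in `B_j`.  If
`X` is a subspace of dimension `t - 1` contained in `B_j` whose nonzero vectors have the used colour
`i`, then `X` and `s_i` span a `t`-dimensional subspace in one colour.  So by the choice of `m` no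
injective linear map `F_3^m → B_j` avoids the unused colours, hence the vectors of `B_j` with unused
colours have density at least `3^(-E_j-m)` in `V`.  Let `C` be the set of those with the most popular
unused colour.  By the cap set theorem (proved here, with polynomial supersaturation, iterated `m`
times) there is a centre `a` such that a fraction `3^(-E_(j+1))` of the linear maps has its image in
`B_(j+1) = C - a`, and the vectors `s_i + a` together with `a` continue the construction.  After `k`
steps there is no unused colour.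
-/

set_option autoImplicit false

namespace Pool.Agent.Results.MP_d9b8e4_co.TowerHeight

open Pool.Agent.Q250

/-- The points of `PG(n-1,3)`: the one-dimensional subspaces of `F_3^n`. -/
abbrev Point (n : ℕ) : Type :=
  {L : Submodule (ZMod 3) (Fin n → ZMod 3) // Module.finrank (ZMod 3) L = 1}

/-- For every colouring of the points of `PG(n-1,3)` with `k` colours there is a `t`-dimensional
subspace `W` of `F_3^n` all of whose points have the same colour. -/
def Forces (t k n : ℕ) : Prop :=
  ∀ c : Point n → Fin k, ∃ W : Submodule (ZMod 3) (Fin n → ZMod 3),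
    Module.finrank (ZMod 3) W = t ∧ ∃ i : Fin k, ∀ L : Point n, L.1 ≤ W → c L = i

/-- The ternary vector space Ramsey number `R_3(t; k)`. -/
noncomputable def R (t k : ℕ) : ℕ := sInf {n : ℕ | Forces t k n}

/-- Towers: `twr 1 x = x` and `twr (i + 1) x = 2 ^ twr i x` for `i ≥ 1`. -/
def twr : ℕ → ℕ → ℕ
  | 0, x => x
  | 1, x => x
  | i + 2, x => 2 ^ twr (i + 1) x

lemma twr_eq (x : ℕ) : ∀ i, twr i x = VSR.twr i x
  | 0 => rfl
  | 1 => rfl
  | i + 2 => by
    rw [twr, VSR.twr, twr_eq x (i + 1)]

lemma forces_of_PP {t k n : ℕ} (hk : 1 ≤ k) (h : VSR.PP t k (Fin n → ZMod 3)) : Forces t k n := by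
  classical
  intro c
  obtain ⟨ψ, i, hψ⟩ := h (fun x => if hx : x ≠ 0 then
    c ⟨Submodule.span (ZMod 3) {x}, finrank_span_singleton hx⟩ else ⟨0, hk⟩) (by
      intro x
      have h1 : Submodule.span (ZMod 3) {-x} = Submodule.span (ZMod 3) {x} := by
        rw [← Set.neg_singleton, Submodule.span_neg]
      by_cases hx : x = 0
      · subst hx
        simp
      · rw [dif_pos hx, dif_pos (neg_ne_zero.2 hx)]
        congr 1
        exact Subtype.ext h1)
  have hinj : Function.Injective ψ := by
    rw [← LinearMap.ker_eq_bot, LinearMap.ker_eq_bot']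
    intro u hu
    by_contra hne
    exact (hψ u hne).1 hu
  refine ⟨LinearMap.range ψ, ?_, i, fun L hL => ?_⟩
  · rw [LinearMap.finrank_range_of_inj hinj, Module.finrank_fintype_fun_eq_card, Fintype.card_fin]
  · obtain ⟨x, hx, hspan⟩ := finrank_eq_one_iff'.1 L.2
    obtain ⟨u, hu⟩ := hL x.2
    have hx0 : (x : Fin n → ZMod 3) ≠ 0 := fun h0 => hx (Subtype.ext h0)
    have hu0 : u ≠ 0 := by
      rintro rfl
      rw [map_zero] at hu
      exact hx0 hu.symm
    have h1 := (hψ u hu0).2
    rw [hu, dif_pos hx0] at h1
    have h2 : Submodule.span (ZMod 3) {(x : Fin n → ZMod 3)} = L.1 := by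
      apply le_antisymm
      · rw [Submodule.span_singleton_le_iff_mem]
        exact x.2
      · intro y hy
        obtain ⟨a, ha⟩ := hspan ⟨y, hy⟩
        rw [Submodule.mem_span_singleton]
        exact ⟨a, congrArg Subtype.val ha⟩
    rw [← h1]
    congr 1
    exact Subtype.ext h2.symm

/-- The numbers `R_3(t; k)` exist; for fixed `t` they are bounded by a tower of constant height in the
number `k` of colours; and for `t ≥ 2` by the tower of height `t` with the top `11 (t - 1) k`. -/
theorem result :
    (∀ t k : ℕ, 1 ≤ t → 1 ≤ k → Forces t k (R t k)) ∧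
    (∀ t : ℕ, 1 ≤ t → ∃ r : ℕ, 1 ≤ r ∧ ∀ k : ℕ, 1 ≤ k → R t k ≤ twr r k) ∧
    (∀ t k : ℕ, 2 ≤ t → 1 ≤ k → R t k ≤ twr t (11 * (t - 1) * k)) := by
  have h1 : ∀ t k : ℕ, 1 ≤ k → Forces (t + 1) k (VSR.bd k t) := fun t k hk =>
    forces_of_PP hk (VSR.PP_bd k hk t)
  have h2 : ∀ t k : ℕ, 1 ≤ k → R (t + 1) k ≤ VSR.bd k t := fun t k hk => Nat.sInf_le (h1 t k hk)
  refine ⟨fun t k ht hk => ?_, fun t ht => ?_, fun t k ht hk => ?_⟩
  · obtain ⟨t, rfl⟩ := Nat.exists_eq_add_of_le' ht
    exact Nat.sInf_mem (⟨_, h1 t k hk⟩ : {n : ℕ | Forces (t + 1) k n}.Nonempty)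
  · obtain ⟨t, rfl⟩ := Nat.exists_eq_add_of_le' ht
    refine ⟨2 * t + 6, by omega, fun k hk => (h2 t k hk).trans ?_⟩
    rw [twr_eq]
    refine le_trans ?_ (VSR.twr_abs t k)
    cases t with
    | zero =>
      change 1 ≤ 11 * (0 + 1) * k
      omega
    | succ t =>
      refine (VSR.bd_le k t).trans (VSR.twr_mono _ ?_)
      gcongr
      omega
  · obtain ⟨t, rfl⟩ := Nat.exists_eq_add_of_le' ht
    rw [twr_eq]
    exact (h2 (t + 1) k hk).trans (VSR.bd_le k t)

end Pool.Agent.Results.MP_d9b8e4_co.TowerHeight
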